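import Pool.Agent.N184.HK.V7

/-!
# Frobenius acts semisimply on the cohomology of the reductions of hyperkähler varieties

Let `X` be a projective hyperkähler variety over a number field `K`, of any deformation type, `v` a
place of good reduction, `V` the reduction. We prove that Frobenius acts semisimply on
`H^r(\bar V, ℚ_ℓ)`, for all `r` and all `ℓ` which do not divide `v`, from the known case `r = 2`.

Idea of the proof. The Galois group of `K` acts through a finite quotient on the algebra `A` of the
endomorphisms of `H^r(X)` which commute with the Lie algebra `so(H²)` (see the file on semisimplicity
for `MP_b4801b_ag`): the main point is that, at the good places of degree one, the eigenvalues of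
Frobenius on `A` are roots of unity, by weak admissibility and the trace form of `so(H²)`. Let `σ` be a
Frobenius element at `v` and `τ = σ ^ k` a power of `σ` which acts trivially on `A`, and let `u` be the
unipotent part of `τ` on `H^r`. As `τ` acts semisimply on `H²`, it acts semisimply by conjugation on
`so(H²)`, so `u` commutes with `so(H²)`; and `u` commutes with `A`, as `τ` does. So `u - 1` is a
nilpotent element of the center of `A`. By Weyl's theorem it is zero, so that `τ` and `σ` act
semisimply.
-/

set_option autoImplicit false

namespace Pool.Agent.Results.MP_93fb11_ag.HyperkaehlerReductions

open Pool.Agent.N184.HK Pool.Agent.W401.Cheb NumberField IsDedekindDomain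

/-- **Frobenius acts semisimply on the cohomology of the reductions of projective hyperkähler
varieties.** `X` is a projective hyperkähler variety over the number field `K` and `v` a place of good
reduction; `σ` is a geometric Frobenius element at `v`, whose action on `H^r(X)` is the action of
Frobenius on `H^r` of the reduction. It is diagonalizable for all `r`. -/
theorem result {K : Type} [Field K] [NumberField K] {Ω : Type} [Field Ω] [CharZero Ω]
    [IsAlgClosed Ω] [TopologicalSpace Ω] [IsTopologicalRing Ω] [T2Space Ω] (X : HKVariety K Ω)
    (D : FrobeniusTwo X) (v : HeightOneSpectrum (𝓞 K)) (hv : v ∉ X.bad) (σ : GK K)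
    (hσ : IsFrob v σ⁻¹) :
    ∀ r ≤ X.d, Diag (X.E.Φ σ r) :=
  fun _ hr => frob_all D hv hσ hr

end Pool.Agent.Results.MP_93fb11_ag.HyperkaehlerReductions
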