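import Pool.Agent.N882.UE.SemiSim
import Pool.Agent.N882.UE.Tb

/-!
# Semisimplicity of Frobenius: smooth cubic hypersurfaces and their complements

Let `T X i = H^i(X, ℚ_ℓ)` be the geometric cohomology with its Frobenius `F` of a smooth scheme `X` over
the field with `p` elements (for a scheme over a field with `p^e` elements, regarded as a scheme over the
field with `p` elements, `F` is semisimple iff the Frobenius over the large field is). The following are
equivalent:

1. `F` is semisimple on the cohomology of all smooth proper `V`;
2. `F` is semisimple on the cohomology of all smooth `X`;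
3. for the smooth cubics `∑ z_l f_l(x) = 1` where each `f_l` is a sum of at most three monomials of degree
   at most two with coefficients `1`: the generalised eigenvectors of `F` for the eigenvalues `p^j` are
   eigenvectors;
4. the same for the complements `∑ z_l f_l(x) ≠ 1` of these cubics in the affine spaces.
-/

set_option autoImplicit false

open AlgebraicGeometry

namespace Pool.Agent.Results.MP_93fb11_ag.SmoothCubics

open Pool.Agent.Y116.UV Pool.Agent.N882.UE

theorem result {E : Type} [Field E] [CharZero E] (p : ℕ) [hp : Fact p.Prime]
    {T : Sch (ZMod p) → ℤ → FrobMod E} (hT : IsFrob p T) :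
    [∀ V : Sch (ZMod p), SmProper V → ∀ i, (T V i).SS,
      ∀ X : Sch (ZMod p), FT True X → Smooth X.hom → ∀ i, (T X i).SS,
      ∀ (n m : ℕ) (f : Fin m → MvPolynomial (Fin n) (ZMod p)), (∀ l, IsQuad (f l)) →
        ∀ i j : ℤ, (T (cub f) i).SSat ((p : E) ^ j),
      ∀ (n m : ℕ) (f : Fin m → MvPolynomial (Fin n) (ZMod p)), (∀ l, IsQuad (f l)) →
        ∀ i j : ℤ, (T (cubC f) i).SSat ((p : E) ^ j)].TFAE :=
  semi_tfae hT (quad_presents (Pool.Agent.Q282.UZ.short_presents
    (int_surj (by rw [Nat.card_zmod]; exact hp.out))))

end Pool.Agent.Results.MP_93fb11_ag.SmoothCubics
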