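import Pool.Agent.N536.FS.Dual

/-!
# A zero–one law for the semisimplicity of Frobenius: counting Tate classes

Let `k` be the field with `q` elements. For a smooth projective variety `X` over `k` let

* `b(X)` be the dimension of the total cohomology `H^*(\bar X)`,
* `t(X)` be the number of the Tate classes, that is, the sum over `j` of the dimensions of the
  eigenspaces of Frobenius on `H^(2 j)(\bar X)` for the eigenvalue `q ^ j`,
* `g(X)` be the number of the generalised Tate classes, that is, the sum over `j` of the
  multiplicities of the eigenvalue `q ^ j` of Frobenius on `H^(2 j)(\bar X)`.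

The known properties of the cohomology which are used are (`IsKTheory`, `IsPD`): `P` is a class of
smooth projective varieties which is closed under products; the cohomology has finite dimension,
Frobenius is invertible and respects the degrees, the Künneth formula and Poincaré duality hold. Nothing
else (no weights, no Lefschetz theorem, no cycle class) is used.

Theorem. (1) If Frobenius is semisimple on all `H^m(\bar X)`, then `t(X^n) = g(X^n)` for all `n`. If
Frobenius is not semisimple on some `H^m(\bar X)`, then the share `t(X^(2 n)) / g(X^(2 n))` of the
Tate classes among the generalised Tate classes of the even powers of `X` is `O(1 / √n)`.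

(2) Consequently, let `f` be any function with `f(y) √(log y) → ∞`. If `t(Y) ≥ f(b(Y)) g(Y)` for all
`Y` in `P`, that is, if the share of the Tate classes is at least `f(b(Y))`, then Frobenius is
semisimple on `H^m(\bar Y)` for all `Y` in `P` and all `m`.

So the semisimplicity of Frobenius on all the cohomology of all smooth projective varieties over
`k` is equivalent to a very weak lower bound for the number of the invariants of Frobenius
alone: it suffices that `t(Y) ≥ g(Y) / (log b(Y)) ^ c` for all `Y`, with some `c < 1 / 2`.
-/

set_option autoImplicit false

open Module Filter Topology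

namespace Pool.Agent.Results.MP_93fb11_ag.ZeroOneLawSmoothProjective

universe u v w

open Pool.Agent.N536.FS

/-- **The zero–one law for the semisimplicity of Frobenius, by counting Tate classes.** -/
theorem result {k : Type u} [Field k] {Ω : Type w} [Field Ω] [CharZero Ω] [IsAlgClosed Ω]
    {P : PVar.{u} k → Prop} {H : PVar.{u} k → FCoh.{v, w} Ω} (hH : IsKTheory PVar.prod P H)
    {q : ℕ} (hq : q ≠ 0)
    (hPD : ∀ X, P X → ∃ (d : ℕ) (B : (H X).V →ₗ[Ω] (H X).V →ₗ[Ω] Ω), IsPD (H X) q d B) :
    (∀ X, P X →
      ((∀ m, (H X).Semisimple m) → ∀ n,
        (H (powK PVar.prod X n)).tateDim q = (H (powK PVar.prod X n)).genTateDim q) ∧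
      (¬ (∀ m, (H X).Semisimple m) → ∃ C : ℝ, ∀ n : ℕ,
        0 < (H (powK PVar.prod X (2 * n + 1))).genTateDim q ∧
        √((n : ℝ) + 1) * (H (powK PVar.prod X (2 * n + 1))).tateDim q ≤
          C * (H (powK PVar.prod X (2 * n + 1))).genTateDim q)) ∧
    ∀ f : ℕ → ℝ, Tendsto (fun y : ℕ => f y * √(Real.log y)) atTop atTop →
      (∀ X, P X → f (H X).betti * (H X).genTateDim q ≤ (H X).tateDim q) →
      ∀ X, P X → ∀ m, (H X).Semisimple m :=
  dual_law hH hq hPD

end Pool.Agent.Results.MP_93fb11_ag.ZeroOneLawSmoothProjective
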